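import Pool.Agent.Helper52.EK.Defs
set_option autoImplicit false
open Complex MeasureTheory Metric Set
open scoped Real ComplexConjugate

/-! Project EK, module E6b: rotation of the data. -/

namespace Pool.Agent.Helper9.EK

open Pool.Agent.Helper39.Area Pool.Agent.Helper52.EK

/-- rotated data: `phi (rotβ β α) z = e^(iα) phi β (e^(iα) z)` -/
noncomputable def rotβ (β : ℂ → ℂ) (α : ℝ) (z : ℂ) : ℂ :=
  Complex.exp (α * I) * β (Complex.exp (α * I) * z)

theorem norm_exp_mul (α : ℝ) (z : ℂ) : ‖Complex.exp (α * I) * z‖ = ‖z‖ := by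
  rw [norm_mul, Complex.norm_exp_ofReal_mul_I, one_mul]

theorem mem_ball_rot {α R : ℝ} {z : ℂ} (hz : z ∈ ball (0:ℂ) R) :
    Complex.exp (α * I) * z ∈ ball (0:ℂ) R := by
  rw [mem_ball_zero_iff] at hz ⊢
  rwa [norm_exp_mul]

theorem deriv_rotβ {β : ℂ → ℂ} (α : ℝ) (z : ℂ) :
    deriv (rotβ β α) z = Complex.exp (α * I) * (Complex.exp (α * I) *
      deriv β (Complex.exp (α * I) * z)) := by
  have h1 : rotβ β α = fun z => Complex.exp (α * I) * (fun z => β (Complex.exp (α * I) * z)) z := rfl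
  rw [h1, deriv_const_mul_field, deriv_comp_mul_left, smul_eq_mul]

theorem rot_N' {β : ℂ → ℂ} (α : ℝ) (z : ℂ) :
    N (rotβ β α) z = N β (Complex.exp (α * I) * z) := by
  unfold N
  rw [deriv_rotβ]
  ring

theorem rot_N {β : ℂ → ℂ} {R : ℝ} (_h : ExtR β R) (α : ℝ) {z : ℂ} (_hz : ‖z‖ < R) :
    N (rotβ β α) z = N β (Complex.exp (α * I) * z) := rot_N' α z

theorem rot_ExtR {β : ℂ → ℂ} {R : ℝ} (h : ExtR β R) (α : ℝ) : ExtR (rotβ β α) R := by
  have hc : Complex.exp (α * I) ≠ 0 := Complex.exp_ne_zero _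
  refine ⟨h.one_lt, ?_, ?_, ?_⟩
  · have h1 : DifferentiableOn ℂ (fun z => β (Complex.exp (α * I) * z)) (ball 0 R) :=
      h.diff.comp (differentiableOn_id.const_mul _) (fun z hz => mem_ball_rot hz)
    exact h1.const_mul _
  · intro ζ ω hζ hω hζ0 hω0 he
    have h2 := h.inj (Complex.exp (α * I) * ζ) (Complex.exp (α * I) * ω) (mem_ball_rot hζ)
      (mem_ball_rot hω) (mul_ne_zero hc hζ0) (mul_ne_zero hc hω0) ?_
    · exact mul_left_cancel₀ hc h2
    · apply mul_left_cancel₀ hc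
      have e1 : ∀ w : ℂ, Complex.exp (α * I) * ((Complex.exp (α * I) * w)⁻¹ +
          β (Complex.exp (α * I) * w)) = w⁻¹ + rotβ β α w := by
        intro w
        unfold rotβ
        rw [mul_add, mul_inv, ← mul_assoc, mul_inv_cancel₀ hc, one_mul]
      rw [e1, e1, he]
  · intro ζ hζ
    have h3 := h.ne (Complex.exp (α * I) * ζ) (mem_ball_rot hζ)
    have h4 := rot_N' (β := β) α ζ
    unfold N at h4
    rw [h4]
    exact h3

theorem ep_add (t θ α : ℝ) : ep t (θ + α) = Complex.exp (α * I) * ep t θ := by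
  unfold ep
  rw [← Complex.exp_add]
  congr 1
  push_cast
  ring

theorem ep_two_pi (t θ : ℝ) : ep t (θ + 2 * π) = ep t θ := by
  rw [ep_add]
  have : Complex.exp (((2 * π : ℝ) : ℂ) * I) = 1 := by
    push_cast
    exact Complex.exp_two_pi_mul_I
  rw [this, one_mul]

theorem norm_exp_one (α : ℝ) : ‖Complex.exp (α * I)‖ = 1 := Complex.norm_exp_ofReal_mul_I α

theorem conj_exp_mul (α : ℝ) : conj (Complex.exp (α * I)) * Complex.exp (α * I) = 1 := by
  rw [← Complex.normSq_eq_conj_mul_self, Complex.normSq_eq_norm_sq, norm_exp_one]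
  simp

theorem Pk_rot (α : ℝ) (z : ℂ) : Pk (Complex.exp (α * I)) (Complex.exp (α * I) * z) = Pk 1 z := by
  unfold Pk
  rw [norm_exp_mul]
  have : Complex.exp (α * I) - Complex.exp (α * I) * z = Complex.exp (α * I) * (1 - z) := by ring
  rw [this, norm_exp_mul]

theorem ee_rot (α : ℝ) (z : ℂ) : ee (Complex.exp (α * I)) (Complex.exp (α * I) * z) =
    conj (Complex.exp (α * I)) * ee 1 z := by
  unfold ee
  have hc : Complex.exp (α * I) ≠ 0 := Complex.exp_ne_zero _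
  have e1 : Complex.exp (α * I) - Complex.exp (α * I) * z = Complex.exp (α * I) * (1 - z) := by ring
  have e2 : 1 - conj (Complex.exp (α * I) * z) * Complex.exp (α * I) = 1 - conj z * 1 := by
    rw [map_mul]
    have := conj_exp_mul α
    linear_combination (-(conj z)) * this
  have e3 : (Complex.exp (α * I))⁻¹ = conj (Complex.exp (α * I)) := by
    rw [eq_comm, ← mul_eq_one_iff_eq_inv₀ hc]
    exact conj_exp_mul α
  rw [e1, e2, div_eq_mul_inv, mul_inv, e3]
  ring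

theorem mrad_rot {β : ℂ → ℂ} (α : ℝ) (z : ℂ) :
    mrad (rotβ β α) z = mrad β (Complex.exp (α * I) * z) := by
  have h1 : N (rotβ β α) = fun z => N β (Complex.exp (α * I) * z) := funext (rot_N' α)
  unfold mrad
  rw [h1, deriv_comp_mul_left, smul_eq_mul, norm_exp_mul, map_mul]
  have := conj_exp_mul α
  have e : ∀ A : ℂ, Complex.exp (α * I) * z / (‖z‖ : ℂ) *
      (-(conj (Complex.exp (α * I)) * conj z) - A) =
      z / (‖z‖ : ℂ) * (-(conj (Complex.exp (α * I)) * Complex.exp (α * I)) * conj z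
        - Complex.exp (α * I) * A) := by
    intro A; ring
  rw [e, this]
  ring

theorem wf_rot {G β : ℂ → ℂ} (α : ℝ) (z : ℂ) :
    wf G β (Complex.exp (α * I) * z) = conj (Complex.exp (α * I)) * wf G (rotβ β α) z := by
  unfold wf
  rw [mrad_rot, norm_exp_mul, mul_div_assoc, map_mul]
  ring

theorem rot_Kf' {β G : ℂ → ℂ} (α : ℝ) (t₀ t₂ : ℝ) :
    Kf (wf G β) (Complex.exp (α * I)) t₀ t₂ = Kf (wf G (rotβ β α)) 1 t₀ t₂ := by
  unfold Kf
  congr 1
  apply intervalIntegral.integral_congr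
  intro t _
  show (∫ θ in (-π)..π, (t₂ - t) * Pk (Complex.exp (α * I)) (ep t θ) *
      ‖ee (Complex.exp (α * I)) (ep t θ) - wf G β (ep t θ)‖ ^ 2 / Real.sinh t ^ 2) =
    ∫ θ in (-π)..π, (t₂ - t) * Pk 1 (ep t θ) *
      ‖ee 1 (ep t θ) - wf G (rotβ β α) (ep t θ)‖ ^ 2 / Real.sinh t ^ 2
  set f : ℝ → ℝ := fun θ => (t₂ - t) * Pk (Complex.exp (α * I)) (ep t θ) *
      ‖ee (Complex.exp (α * I)) (ep t θ) - wf G β (ep t θ)‖ ^ 2 / Real.sinh t ^ 2 with hf
  have hper : Function.Periodic f (2 * π) := by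
    intro θ
    simp only [hf, ep_two_pi]
  have hshift : ∀ θ, f (θ + α) = (t₂ - t) * Pk 1 (ep t θ) *
      ‖ee 1 (ep t θ) - wf G (rotβ β α) (ep t θ)‖ ^ 2 / Real.sinh t ^ 2 := by
    intro θ
    simp only [hf]
    rw [ep_add, Pk_rot, ee_rot, wf_rot, ← mul_sub, norm_mul]
    have : ‖conj (Complex.exp (α * I))‖ = 1 := by
      rw [RCLike.norm_conj, norm_exp_one]
    rw [this, one_mul]
  have h1 : (∫ θ in (-π)..π, (t₂ - t) * Pk 1 (ep t θ) *
      ‖ee 1 (ep t θ) - wf G (rotβ β α) (ep t θ)‖ ^ 2 / Real.sinh t ^ 2) =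
      ∫ θ in (-π)..π, f (θ + α) := by
    apply intervalIntegral.integral_congr
    intro θ _
    exact (hshift θ).symm
  rw [h1, intervalIntegral.integral_comp_add_right]
  have h2 := hper.intervalIntegral_add_eq (-π) (-π + α)
  have e1 : -π + 2 * π = π := by ring
  have e2 : -π + α + 2 * π = π + α := by ring
  rw [e1, e2] at h2
  exact h2

theorem rot_Kf {β : ℂ → ℂ} {R : ℝ} (_h : ExtR β R) {G : ℂ → ℂ} {L : ℝ} (_hG : GLip G L) (α : ℝ)
    {t₂ : ℝ} (_h1 : -1 < t₂) (_h2 : t₂ < 0) :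
    Kf (wf G β) (Complex.exp (α * I)) (-1) t₂ = Kf (wf G (rotβ β α)) 1 (-1) t₂ :=
  rot_Kf' α (-1) t₂

end Pool.Agent.Helper9.EK
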